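import Pool.Agent.W474.Cat.Main

/-!
# Ideals of minors of catalecticant matrices need not be saturated

The definitions are those of `Pool/Agent/W474/Cat/Defs.lean`: `Mon n d` is the type of exponent
vectors of degree `d` in `n` variables, `minorsIdeal k n i j r` is the ideal of
`S = k[z_γ : |γ| = i + j]` generated by the `(r + 1) × (r + 1)` minors of the catalecticant matrix
`Υ^{i, j}`, and `irrelevant k n d` is the irrelevant ideal `(z_γ : |γ| = d)`.
-/

set_option autoImplicit false

namespace Pool.Agent.Results.MP_bed02b_ag.NotSaturated

open MvPolynomial Pool.Agent.W474.Cat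

/-- For every field `k` of characteristic three and every `n ≥ 9`, the ideal
`Minors_2(Υ^{1,2})` generated by the `3 × 3` minors of the first catalecticant matrix of cubic forms
in `n` variables is not saturated: a cubic form `f` outside it is multiplied into it by a power of
the irrelevant ideal. -/
theorem result (k : Type*) [Field k] [CharP k 3] (n : ℕ) (hn : 9 ≤ n) :
    ∃ f : MvPolynomial (Mon n (1 + 2)) k, f.IsHomogeneous 3 ∧ f ∉ minorsIdeal k n 1 2 2 ∧
      ∃ N : ℕ, ∀ g ∈ irrelevant k n (1 + 2) ^ N, g * f ∈ minorsIdeal k n 1 2 2 :=
  main (by exact_mod_cast CharP.cast_eq_zero k 3) hn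

end Pool.Agent.Results.MP_bed02b_ag.NotSaturated
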